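import Mathlib
import Pool.Agent.Helper35.HG.StD
import Pool.Agent.Helper8.HSF.M_PNA

/-! Project HG, module RI4: the region at a small time. -/

set_option autoImplicit false

namespace Helper20.HG

open Helper35.HG Helper35.HC Helper35.HSF Helper35.MS Helper35.PI Helper35.PI2 Helper32.CL
open scoped ContDiff Manifold Topology ENNReal BigOperators
open MeasureTheory Set Filter

private lemma ri_An_smul {n N : ℕ} {M : Type} [TopologicalSpace M] [ChartedSpace (EE n) M]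
    (F : M → ℝ → EE N) (q : M) (t r : ℝ) (c : Fin n → ℝ) :
    An F q t (r • c) = (r ^ 2) • An F q t c := by
  unfold An
  rw [Finset.smul_sum]
  refine Finset.sum_congr rfl fun i _ => ?_
  rw [Finset.smul_sum]
  refine Finset.sum_congr rfl fun j _ => ?_
  rw [smul_smul]
  congr 1
  simp only [Pi.smul_apply, smul_eq_mul]
  ring

theorem hRI4 (hCN4 : StCN4) (hP3H : StP3H) (hINB : StINB) : StRI4 := by
  intro n N k hN p hp M _ _ _ _ _ F TE hTE hTE1 hF hpin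
  have hn1 : 1 ≤ n := le_trans (by norm_num) hp.n16
  have h0 : (0 : ℝ) ∈ ISN n TE := by
    refine ⟨le_rfl, ?_⟩
    unfold sgN
    simpa using hTE
  have hud := Helper8.HSF.ISN_ud hn1 hTE
  obtain ⟨τ₀, δ, hτ0, hτ1, hδ, hP⟩ := hP3H n N hn1 M (ISN n TE) F hud h0 hF hpin
  obtain ⟨hfl, hC⟩ := hCN4 n N hn1 M F TE hTE hTE1 hF
  set t' : ℝ := min δ TE / 2 with ht'
  have hm : 0 < min δ TE := lt_min hδ hTE
  have ht'0 : 0 < t' := by rw [ht']; linarith
  have ht'1 : t' < δ := by rw [ht']; linarith [min_le_left δ TE]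
  have ht'2 : t' < TE := by rw [ht']; linarith [min_le_right δ TE]
  set t₁ : ℝ := sgN n t' with ht₁
  have ht₁m : t₁ ∈ Ioo 0 TE :=
    ⟨Helper8.HSF.sgN_pos hn1 ht'0, lt_of_le_of_lt (Helper8.HSF.sgN_le hn1 _) ht'2⟩
  have ht₁t : tmN n t₁ = t' := Helper8.HSF.tmN_sgN hn1 t'
  obtain ⟨c1, -, c3, c4⟩ := hC t₁ ⟨ht₁m.1.le, ht₁m.2⟩
  have hkey : ∀ q, ∀ c : Fin n → ℝ, gn (FEN n F) q t₁ c = 1 →
      rr n t₁ * ‖An (FEN n F) q t₁ c + (1 / rr n t₁) • FEN n F q t₁‖ ^ 2 ≤ τ₀ := by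
    intro q c hc
    obtain ⟨-, -, -, d⟩ := c4 q
    obtain ⟨d1, d2⟩ := d c
    rw [d1] at hc
    set s : ℝ := Real.sqrt (rr n t₁) with hs
    have hss : s ^ 2 = rr n t₁ := Real.sq_sqrt c3.le
    have hs0 : 0 < s := Real.sqrt_pos.2 c3
    have e1 : gn F q (tmN n t₁) (s • c) = 1 := by
      rw [Helper8.HSF.gn_smul, hss]
      exact hc
    have e2 := hP _ c1 c1.1 (by rw [ht₁t]; exact ht'1) q _ e1
    have e3 : An (FEN n F) q t₁ c + (1 / rr n t₁) • FEN n F q t₁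
        = (1 / s) • (An F q (tmN n t₁) (s • c) + F q (tmN n t₁)) := by
      rw [d2, ri_An_smul, smul_add, smul_smul]
      unfold FEN
      rw [← hs, smul_smul, ← hss]
      congr 2
      · field_simp
      · field_simp
    rw [e3, norm_smul, mul_pow, Real.norm_eq_abs, sq_abs, ← hss]
    have e4 : s ^ 2 * ((1 / s) ^ 2 * ‖An F q (tmN n t₁) (s • c) + F q (tmN n t₁)‖ ^ 2)
        = ‖An F q (tmN n t₁) (s • c) + F q (tmN n t₁)‖ ^ 2 := by
      field_simp
    rw [e4]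
    exact e2
  exact ⟨1 / 3 + 2 * τ₀, t₁, ht₁m, by linarith, by linarith,
    hINB n N k hN p hp M (Ioo 0 TE) (FEN n F) hfl t₁ τ₀ ht₁m hτ1 hkey⟩

end Helper20.HG
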